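import Pool.Agent.H59.CFL.Targets

/-!
# Elliptic and parabolic elements have arbitrarily small displacement
-/

set_option autoImplicit false

open MeasureTheory Filter Topology Set
open scoped UpperHalfPlane MatrixGroups

namespace Pool.Agent.H74.CFL

open Pool.Agent.H59.CFL

lemma dist_le (g : SL(2, ℝ)) (w : ℍ) :
    dist (g • w) w ≤ ‖(g 1 0 : ℂ) * (w : ℂ) ^ 2 + ((g 1 1 : ℂ) - (g 0 0 : ℂ)) * w - (g 0 1 : ℂ)‖ /
      w.im := by
  have h1 : dist (g • w) w / 2 ≤ Real.sinh (dist (g • w) w / 2) :=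
    Real.self_le_sinh_iff.2 (by positivity)
  rw [UpperHalfPlane.sinh_half_dist] at h1
  have hw := w.im_pos
  set D : ℂ := (g 1 0 : ℂ) * w + (g 1 1 : ℂ) with hD
  have hD0 : D ≠ 0 := by
    have := UpperHalfPlane.denom_ne_zero g w
    simpa [UpperHalfPlane.denom, hD] using this
  have hDn : 0 < ‖D‖ := norm_pos_iff.2 hD0
  have hcoe : ((g • w : ℍ) : ℂ) = ((g 0 0 : ℂ) * w + (g 0 1 : ℂ)) / D := by
    rw [UpperHalfPlane.specialLinearGroup_apply]
    simp [hD]
  have hdet : g 0 0 * g 1 1 - g 0 1 * g 1 0 = 1 := by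
    have := g.det_coe
    rw [Matrix.det_fin_two] at this
    exact this
  have him : (g • w).im = w.im / ‖D‖ ^ 2 := by
    have h0 : (g • w).im = ((g • w : ℍ) : ℂ).im := rfl
    rw [h0, hcoe, Complex.div_im, ← Complex.normSq_eq_norm_sq, ← sub_div]
    congr 1
    have e1 : ((g 0 0 : ℂ) * (w : ℂ) + (g 0 1 : ℂ)).im = g 0 0 * w.im := by simp
    have e2 : ((g 0 0 : ℂ) * (w : ℂ) + (g 0 1 : ℂ)).re = g 0 0 * w.re + g 0 1 := by simp
    have e3 : D.re = g 1 0 * w.re + g 1 1 := by simp [hD]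
    have e4 : D.im = g 1 0 * w.im := by simp [hD]
    rw [e1, e2, e3, e4]
    have : g 0 0 * w.im * (g 1 0 * w.re + g 1 1) - (g 0 0 * w.re + g 0 1) * (g 1 0 * w.im) =
        (g 0 0 * g 1 1 - g 0 1 * g 1 0) * w.im := by ring
    rw [this, hdet, one_mul]
  have hs : Real.sqrt ((g • w).im * w.im) = w.im / ‖D‖ := by
    rw [him]
    have : w.im / ‖D‖ ^ 2 * w.im = (w.im / ‖D‖) ^ 2 := by
      field_simp
    rw [this, Real.sqrt_sq (by positivity)]
  have hd : dist ((g • w : ℍ) : ℂ) (w : ℂ) =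
      ‖(g 1 0 : ℂ) * (w : ℂ) ^ 2 + ((g 1 1 : ℂ) - (g 0 0 : ℂ)) * w - (g 0 1 : ℂ)‖ / ‖D‖ := by
    rw [dist_eq_norm, hcoe, ← norm_neg, ← norm_div]
    congr 1
    rw [eq_div_iff hD0, neg_mul, sub_mul, div_mul_cancel₀ _ hD0, hD]
    ring
  rw [hs, hd] at h1
  have h2 : ‖(g 1 0 : ℂ) * (w : ℂ) ^ 2 + ((g 1 1 : ℂ) - (g 0 0 : ℂ)) * w - (g 0 1 : ℂ)‖ / ‖D‖ /
      (2 * (w.im / ‖D‖)) =
      ‖(g 1 0 : ℂ) * (w : ℂ) ^ 2 + ((g 1 1 : ℂ) - (g 0 0 : ℂ)) * w - (g 0 1 : ℂ)‖ / w.im / 2 := by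
    field_simp
  rw [h2] at h1
  linarith

theorem pf_TRA : T_TRA := by
  intro g htr ε hε
  have hdet : g 0 0 * g 1 1 - g 0 1 * g 1 0 = 1 := by
    have := g.det_coe
    rw [Matrix.det_fin_two] at this
    exact this
  have htr' : |g 0 0 + g 1 1| ≤ 2 := by
    have : Matrix.trace (g : Matrix (Fin 2) (Fin 2) ℝ) = g 0 0 + g 1 1 := Matrix.trace_fin_two _
    rwa [this] at htr
  have htr2 : (g 0 0 + g 1 1) ^ 2 ≤ 4 := by
    have h1 := abs_le.1 htr'
    nlinarith [h1.1, h1.2]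
  obtain ⟨a, ha⟩ : ∃ a, a = g 0 0 := ⟨_, rfl⟩
  obtain ⟨b, hb⟩ : ∃ b, b = g 0 1 := ⟨_, rfl⟩
  obtain ⟨c, hc⟩ : ∃ c, c = g 1 0 := ⟨_, rfl⟩
  obtain ⟨d, hd⟩ : ∃ d, d = g 1 1 := ⟨_, rfl⟩
  have key : ∀ w : ℍ, dist (g • w) w ≤
      ‖(c : ℂ) * (w : ℂ) ^ 2 + ((d : ℂ) - (a : ℂ)) * w - (b : ℂ)‖ / w.im := by
    intro w
    rw [ha, hb, hc, hd]
    exact dist_le g w
  rw [← ha, ← hb, ← hc, ← hd] at hdet
  rw [← ha, ← hd] at htr2
  by_cases hc0 : c = 0
  · subst hc0
    have had : a * d = 1 := by linarith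
    have hda : d = a := by
      have : (d - a) ^ 2 ≤ 0 := by nlinarith
      have : d - a = 0 := by
        apply pow_eq_zero_iff (two_ne_zero) |>.1
        exact le_antisymm this (sq_nonneg _)
      linarith
    obtain ⟨y, hy, hy1⟩ : ∃ y : ℝ, 0 < y ∧ |b| / y < ε := by
      refine ⟨|b| / ε + 1, by positivity, ?_⟩
      rw [div_lt_iff₀ (by positivity)]
      have : ε * (|b| / ε + 1) = |b| + ε := by field_simp
      rw [this]
      linarith
    refine ⟨⟨⟨0, y⟩, hy⟩, ?_⟩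
    refine lt_of_le_of_lt (key _) ?_
    rw [hda]
    simp only [Complex.ofReal_zero, zero_mul, sub_self, zero_sub, norm_neg, zero_add]
    rw [Complex.norm_real, Real.norm_eq_abs]
    exact hy1
  · have hcabs : 0 < |c| := abs_pos.2 hc0
    obtain ⟨y, hy, hy1⟩ : ∃ y : ℝ, 0 < y ∧
        |(4 - (a + d) ^ 2) / (4 * c) - c * y ^ 2| / y < ε := by
      rcases lt_or_eq_of_le htr2 with h | h
      · refine ⟨Real.sqrt (4 - (a + d) ^ 2) / (2 * |c|), ?_, ?_⟩
        · have : 0 < Real.sqrt (4 - (a + d) ^ 2) := Real.sqrt_pos.2 (by linarith)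
          positivity
        · have h1 : (Real.sqrt (4 - (a + d) ^ 2) / (2 * |c|)) ^ 2 =
              (4 - (a + d) ^ 2) / (4 * c ^ 2) := by
            rw [div_pow, Real.sq_sqrt (by linarith), mul_pow, sq_abs]
            norm_num
          have h2 : (4 - (a + d) ^ 2) / (4 * c) -
              c * (Real.sqrt (4 - (a + d) ^ 2) / (2 * |c|)) ^ 2 = 0 := by
            rw [h1]
            field_simp
            ring
          rw [h2]
          simpa using hε
      · refine ⟨ε / (2 * |c|), by positivity, ?_⟩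
        rw [h]
        have h1 : (4 - 4 : ℝ) / (4 * c) - c * (ε / (2 * |c|)) ^ 2 = - (c * (ε / (2 * |c|)) ^ 2) := by
          ring
        rw [h1, abs_neg, abs_mul, abs_of_nonneg (sq_nonneg (ε / (2 * |c|)))]
        have h2 : |c| * (ε / (2 * |c|)) ^ 2 / (ε / (2 * |c|)) = ε / 2 := by
          field_simp
        rw [h2]
        linarith
    refine ⟨⟨⟨(a - d) / (2 * c), y⟩, hy⟩, ?_⟩
    refine lt_of_le_of_lt (key _) ?_
    have e1 : (c : ℂ) * ((⟨(a - d) / (2 * c), y⟩ : ℂ)) ^ 2 +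
        ((d : ℂ) - (a : ℂ)) * (⟨(a - d) / (2 * c), y⟩ : ℂ) - (b : ℂ) =
        (((4 - (a + d) ^ 2) / (4 * c) - c * y ^ 2 : ℝ) : ℂ) := by
      obtain ⟨r, hr⟩ : ∃ r, r = (4 - (a + d) ^ 2) / (4 * c) := ⟨_, rfl⟩
      obtain ⟨x, hx⟩ : ∃ x, x = (a - d) / (2 * c) := ⟨_, rfl⟩
      rw [← hr, ← hx]
      rw [eq_div_iff (by positivity)] at hr hx
      apply Complex.ext
      · simp only [pow_two, Complex.mul_re, Complex.mul_im, Complex.sub_re, Complex.add_re,
          Complex.ofReal_re, Complex.ofReal_im, Complex.sub_im, Complex.add_im]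
        have h4 : c * ((c * (x * x - y * y) + (d - a) * x - b) - (r - c * (y * y))) = 0 := by
          have e3 : c * x = (a - d) / 2 := by linarith
          have e4 : c * r = (4 - (a + d) ^ 2) / 4 := by linarith
          have : c * ((c * (x * x - y * y) + (d - a) * x - b) - (r - c * (y * y))) =
              (c * x) * (c * x) + (d - a) * (c * x) - c * b - c * r := by ring
          rw [this, e3, e4]
          linarith
        have h5 := (mul_eq_zero.1 h4).resolve_left hc0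
        linarith
      · simp only [pow_two, Complex.mul_re, Complex.mul_im, Complex.sub_re, Complex.add_re,
          Complex.ofReal_re, Complex.ofReal_im, Complex.sub_im, Complex.add_im]
        have e3 : c * x = (a - d) / 2 := by linarith
        have : c * (x * y + y * x) = 2 * y * (c * x) := by ring
        linarith [this, e3, mul_comm (d - a) y, show 2 * y * (c * x) = 2 * y * ((a - d) / 2) by
          rw [e3]]
    have e2 : ‖(c : ℂ) * (((⟨⟨(a - d) / (2 * c), y⟩, hy⟩ : ℍ) : ℂ)) ^ 2 +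
        ((d : ℂ) - (a : ℂ)) * ((⟨⟨(a - d) / (2 * c), y⟩, hy⟩ : ℍ) : ℂ) - (b : ℂ)‖ =
        |(4 - (a + d) ^ 2) / (4 * c) - c * y ^ 2| := by
      rw [← Real.norm_eq_abs, ← Complex.norm_real, ← e1]
    rw [e2]
    exact hy1

end Pool.Agent.H74.CFL
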